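import Pool.Agent.W484.CK.Motivic

/-!
# Definitions for `MP_859dd5_ag.HyperplaneCoverings`
-/

set_option autoImplicit false

open Finset Polynomial CategoryTheory AlgebraicGeometry

namespace Pool.Agent.N876.NR3

open Pool.Agent.H914 Pool.Agent.H914.VarClass Pool.Agent.H914.VarClass.Obj Pool.Agent.W492.BB
  Pool.Agent.W484.CK

/-- A cyclic covering `w ^ N = ∏ l_k (x) ^ a_k` of the projective space of dimension `n`, and a root of
unity `z`. -/
structure Covering (κ : Type) [Field κ] : Type where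
  N : ℕ
  n : ℕ
  s : ℕ
  l : Fin s → Fin (n + 1) → κ
  a : Fin s → ℕ
  z : κ

/-- `z` has order `N ≥ 2`, the exponents are prime to `N` and their sum is divisible by `N`. -/
structure Covering.IsAdmissible {κ : Type} [Field κ] (X : Covering κ) : Prop where
  two_le : 2 ≤ X.N
  root : IsPrimitiveRoot X.z X.N
  coprime : ∀ k, (X.a k).Coprime X.N
  dvd : X.N ∣ ∑ k, X.a k

/-- The value of the form `∏ l_k ^ a_k` at a vector with coordinates in `L`. -/
def Covering.value {κ : Type} [Field κ] (X : Covering κ) (L : Type) [Field L] [Algebra κ L]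
    (x : Fin (X.n + 1) → L) : L :=
  ∏ k, (∑ t, algebraMap κ L (X.l k t) * x t) ^ X.a k

/-- The number of vectors over `L` where the form is not zero. -/
noncomputable def Covering.openCount {κ : Type} [Field κ] (X : Covering κ) (L : Type) [Field L]
    [Algebra κ L] : ℕ :=
  Set.ncard {x : Fin (X.n + 1) → L | X.value L x ≠ 0}

/-- The number of vectors over `L` where the form is not zero and its power with the exponent
`(|L| - 1) / N` is `z ^ i`. -/
noncomputable def Covering.fixCount {κ : Type} [Field κ] (X : Covering κ) (L : Type) [Field L]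
    [Fintype L] [Algebra κ L] (i : ℕ) : ℕ :=
  Set.ncard {x : Fin (X.n + 1) → L | X.value L x ≠ 0 ∧
    (X.value L x) ^ ((Fintype.card L - 1) / X.N) = algebraMap κ L X.z ^ i}

/-- `T` is the part without invariants of the cohomology of degree `n` of a smooth projective model
of the covering, with the Frobenius `Φ` and the generator `g` of the covering group. The trace
of `Φ ^ [L : κ] g ^ i` is up to the sign the difference of the number of fixed points over the open
set `∏ l_k ≠ 0` of projective space (`N` points over each point where the form has the power residue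
symbol `z ^ i`) and of the number of the points of this open set. -/
structure IsCyclicCovering {κ : Type} [Field κ] (X : Covering κ) {K T : Type} [Field K]
    [AddCommGroup T] [Module K T] (Φ g : Module.End K T) : Prop where
  commute : Commute Φ g
  order : g ^ X.N = 1
  invariants : ∀ t, g t = t → t = 0
  lefschetz : ∀ (L : Type) [Field L] [Fintype L] [Algebra κ L] (i : ℕ),
    ((Fintype.card L : K) - 1) *
        ((-1) ^ X.n * LinearMap.trace K T (Φ ^ Module.finrank κ L * g ^ i)) =
      (X.N : K) * (X.fixCount L i : K) - (X.openCount L : K)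

/-- The mean over `j, c j, …, c ^ (f - 1) j` of the sum of the fractional parts of `j a_k / N`. -/
def Covering.weight {κ : Type} [Field κ] (X : Covering κ) (c f j : ℕ) : ℚ :=
  (∑ k, ∑ t ∈ range f, (((j * X.a k * c ^ t) % X.N : ℕ) : ℚ)) / (f * X.N)

/-- The condition on the exponents. -/
def IsSmall {κ : Type} [Field κ] {ι : Type} (X : ι → Covering κ) (c f N lam : ℕ) : Prop :=
  ∀ I : Finset ι, I.Nonempty → ∀ j : ι → ℕ, (∀ i ∈ I, ¬ (X i).N ∣ j i) →
    ∃ u : ℕ, u.Coprime N ∧
      ∑ i ∈ I, (X i).weight c f (u * j i) + (lam : ℚ) / 2 < ∑ i ∈ I, (((X i).n : ℚ) / 2 + 1)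

/-- The space `H` is generated by the subspace `P` (the classes of algebraic cycles) and a subspace `T`
which is stable under `Φ` (the Frobenius) and `g` (a generator of the covering group), `T` is the part
without invariants (`IsCyclicCovering`), and pure of weight `n`. The complex numbers enter by an
embedding `τ` of the coefficient field. -/
def IsCoveringCohomology {κ : Type} [Field κ] [Fintype κ] (C : Covering κ) {K H : Type} [Field K]
    [AddCommGroup H] [Module K H] (P : Submodule K H) (Φ g : Module.End K H) (τ : K →+* ℂ) : Prop :=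
  ∃ (T : Submodule K H) (hΦ : ∀ t ∈ T, Φ t ∈ T) (hg : ∀ t ∈ T, g t ∈ T), P ⊔ T = ⊤ ∧
    IsCyclicCovering C (Φ.restrict hΦ) (g.restrict hg) ∧
    ∀ α, Module.End.HasEigenvalue (Φ.restrict hΦ) α → ‖τ α‖ ^ 2 = (Fintype.card κ : ℝ) ^ C.n

/-- The images of the eigenvalues of `Φ` under the embedding `τ` of the coefficient field. -/
def eigenvalues {K H : Type} [Field K] [AddCommGroup H] [Module K H] (Φ : Module.End K H)
    (τ : K →+* ℂ) : Set ℂ :=
  {b | ∃ β : K, Φ.HasEigenvalue β ∧ τ β = b}

/-- The conditions on a set `B` of complex numbers: they are algebraic with `|b| ^ 2 = q ^ j`, and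
either `lam = 0` and the cyclotomic polynomial of order `N` is irreducible over the field generated
by `B`, or `B` is of level at most `lam`. -/
def IsGoodBase (q N lam : ℕ) (B : Set ℂ) : Prop :=
  (∀ b ∈ B, IsAlgebraic ℚ b ∧ ∃ j : ℕ, ‖b‖ ^ 2 = (q : ℝ) ^ j) ∧
    ((lam = 0 ∧ Irreducible (cyclotomic N (IntermediateField.adjoin ℚ B))) ∨
      ∀ b ∈ B, IsIntegral ℤ ((q : ℂ) ^ lam * b / starRingEnd ℂ b))

/-- An endomorphism of an algebra as a linear map. -/
def ofHom {K H : Type} [Field K] [Ring H] [Algebra K H] (g : H →ₐ[K] H) : Module.End K H :=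
  g.toLinearMap

/-- `IsCoveringCohomology` for endomorphisms of an algebra. -/
def IsCoveringAlgebra {κ : Type} [Field κ] [Fintype κ] (C : Covering κ) {K H : Type} [Field K]
    [Ring H] [Algebra K H] (P : Submodule K H) (φ g : H →ₐ[K] H) (τ : K →+* ℂ) : Prop :=
  IsCoveringCohomology C P (ofHom φ) (ofHom g) τ

/-- The images of the eigenvalues of an endomorphism of an algebra. -/
def eigenvaluesOf {K H : Type} [Field K] [Ring H] [Algebra K H] (φ : H →ₐ[K] H) (τ : K →+* ℂ) :
    Set ℂ :=
  eigenvalues (ofHom φ) τ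

/-- The images under `τ` of the products of the eigenvalues of an endomorphism of an algebra and
the roots of the polynomial `χ`. -/
def productsOf {K H : Type} [Field K] [CharZero K] [Ring H] [Algebra K H] (φ : H →ₐ[K] H)
    (χ : ℚ[X]) (τ : K →+* ℂ) : Set ℂ :=
  {b | ∃ β ρ : K, (ofHom φ).HasEigenvalue β ∧ aeval ρ χ = 0 ∧ τ (β * ρ) = b}

/-- The field `κ` has `c ^ f` elements, the coverings are admissible, `N` is a common multiple of
their degrees, and `IsSmall` holds. -/
structure IsSmallSystem {κ : Type} [Field κ] [Fintype κ] {ι : Type} (C : ι → Covering κ)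
    (c f N lam : ℕ) : Prop where
  card : Fintype.card κ = c ^ f
  admissible : ∀ i, (C i).IsAdmissible
  pos : 0 < N
  dvd : ∀ i, (C i).N ∣ N
  small : IsSmall C c f N lam

section geometry

variable {κ : Type} [Field κ] {𝒱 : VarClass κ} {A : TheoryData.{0, 0, 0} 𝒱 ℚ} {K : Type} [Field K]

/-- The span of the classes of cycles on `X`. -/
def cycleSpan (H : WeilTheoryData.{0, 0, 0} A K) (X : 𝒱.Obj) : Submodule K (H.A X) :=
  Submodule.span K {a | ∃ (i : ℕ) (z : A.A X), A.Deg i z ∧ a = H.cl z}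

/-- `X`, with the Frobenius endomorphism `φ`, is a model of the covering `C`, with a generator `g` of
the covering group. -/
def IsModel [Fintype κ] (C : Covering κ) (H : WeilTheoryData.{0, 0, 0} A K) {X : 𝒱.Obj}
    (φ : X ⟶ X) (τ : K →+* ℂ) : Prop :=
  ∃ g : X ⟶ X, IsCoveringAlgebra C (cycleSpan H X) (H.pull φ) (H.pull g) τ

/-- There is a divisor on `X` whose power with the exponent `dim X` is not zero in the cohomology. -/
def IsPolarized (H : WeilTheoryData.{0, 0, 0} A K) (X : 𝒱.Obj) : Prop :=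
  ∃ D : A.A X, A.Deg 1 D ∧ H.cl D ^ X.dim ≠ 0

/-- The product `X i₁ × (X i₂ × (⋯ × Z))`. -/
noncomputable def productOf {ι : Type} (X : ι → 𝒱.Obj) (Z : 𝒱.Obj) : List ι → 𝒱.Obj
  | [] => Z
  | i :: L => (X i).prod (productOf X Z L)

/-- The sum of the dimensions of the `X i`. -/
def dimension {ι : Type} (X : ι → 𝒱.Obj) : List ι → ℕ
  | [] => 0
  | i :: L => (X i).dim + dimension X L

/-- `F` is the Frobenius endomorphism of the varieties over `κ`, the varieties `X i` are models of the
coverings, and `Z` and the polynomial `χ` satisfy `IsGoodBase`. -/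
structure IsCoveringSystem [Fintype κ] [CharZero K] {ι : Type} (C : ι → Covering κ) (N lam : ℕ)
    (H : WeilTheoryData.{0, 0, 0} A K) (τ : K →+* ℂ) (F : ∀ X : 𝒱.Obj, X ⟶ X) (X : ι → 𝒱.Obj)
    (Z : 𝒱.Obj) (χ : ℚ[X]) : Prop where
  standard : IsStandard H
  frobenius : ∀ X, IsFrobenius A (F X) (Fintype.card κ)
  product : ∀ X Y, F (X.prod Y) = prodMap (F X) (F Y)
  model : ∀ i, IsModel (C i) H (F (X i)) τ
  polarized : ∀ i, IsPolarized H (X i)
  algebraic : ∀ b ∈ eigenvaluesOf (H.pull (F Z)) τ, IsAlgebraic ℚ b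
  ne_zero : χ.coeff 0 ≠ 0
  base : IsGoodBase (Fintype.card κ) N lam (productsOf (H.pull (F Z)) χ τ)

/-- The operation of the Frobenius endomorphism of `X` on the theory `T`. -/
noncomputable def frobOn (T : MotivicData A) (F : ∀ X : 𝒱.Obj, X ⟶ X) (X : 𝒱.Obj) (t : T.M X) :
    T.M X :=
  T.app (A.down (Obj.lift (F X) (𝟙 X)) 1) t

/-- The maps `φ` commute with the operation of correspondences. -/
def IsCommuting (T : MotivicData A) (φ : ∀ X, T.M X →ₗ[ℚ] T.M X) : Prop :=
  ∀ {X Y : 𝒱.Obj} (Γ : A.A (X.prod Y)) (t : T.M X), φ Y (T.app Γ t) = T.app Γ (φ X t)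

/-- The product of `φ` and the Frobenius endomorphism of `X` is `q ^ n` on `T^n(X)`. -/
def IsPower (T : MotivicData A) (φ : ∀ X, T.M X →ₗ[ℚ] T.M X) (F : ∀ X : 𝒱.Obj, X ⟶ X) (q : ℕ) :
    Prop :=
  ∀ {X : 𝒱.Obj} {n : ℤ} {t : T.M X}, T.Deg n t → frobOn T F X (φ X t) = (q : ℚ) ^ n • t

/-- `χ (φ) t = 0`. -/
def IsKilled {M : Type} [AddCommGroup M] [Module ℚ M] (φ : M →ₗ[ℚ] M) (χ : ℚ[X]) (t : M) : Prop :=
  aeval φ χ t = 0

/-- `T` is a theory with correspondences with an endomorphism `φ` (the Frobenius endomorphism of a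
scheme `U`) such that `φ` commutes with correspondences, and on `T^n(X)` the product of `φ` and the
Frobenius endomorphism of `X` is `q ^ n` and `χ (φ)` is zero. -/
structure IsRelative (T : MotivicData A) (φ : ∀ X, T.M X →ₗ[ℚ] T.M X) (F : ∀ X : 𝒱.Obj, X ⟶ X)
    (q : ℕ) (χ : ℚ[X]) : Prop where
  motivic : IsMotivic T
  comm : IsCommuting T φ
  power : IsPower T φ F q
  root : ∀ {X : 𝒱.Obj} {n : ℤ} {t : T.M X}, T.Deg n t → IsKilled (φ X) χ t

/-- The group `B` is the direct sum of `C` and of a finite group. -/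
def PlusFinite (B C : Type) [AddCommGroup B] [AddCommGroup C] : Prop :=
  ∃ (E : Type) (_ : AddCommGroup E), Finite E ∧ Nonempty (B ≃+ C × E)

/-- The group `B` is the direct sum of `C` and of a finitely generated group. -/
def PlusFG (B C : Type) [AddCommGroup B] [AddCommGroup C] : Prop :=
  ∃ (E : Type) (_ : AddCommGroup E), AddGroup.FG E ∧ Nonempty (B ≃+ C × E)

/-- The homomorphisms `f` of the groups `G` and `f'` of their quotients `Q` are compatible, and `f`
is compatible with the operation of `M` times the correspondence `Γ` on `T`. -/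
def Lifts (T : MotivicData A) {G Q : 𝒱.Obj → ℤ → Type} [∀ X n, AddCommGroup (G X n)]
    [∀ X n, AddCommGroup (Q X n)] (π : ∀ X n, G X n →+ Q X n) (r : ∀ X n, G X n → T.M X)
    {X Y : 𝒱.Obj} (Γ : A.A (X.prod Y)) (M : ℕ) {n m : ℤ} (f : G X n →+ G Y m)
    (f' : Q X n →+ Q Y m) : Prop :=
  (∀ x, π Y m (f x) = f' (π X n x)) ∧ ∀ x, r Y m (f x) = M • T.app Γ (r X n x)

/-- The known properties of the groups `G X n = H^{2n}_et(X × U, ℤ(n))`, of their quotients `Q X n`
modulo the image of `CH^n(X × U)`, and of the maps `r` to `T^n(X) = CH^n(X × U) ⊗ ℚ`. -/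
structure IsUnramified (T : MotivicData A) {G Q : 𝒱.Obj → ℤ → Type}
    [∀ X n, AddCommGroup (G X n)] [∀ X n, AddCommGroup (Q X n)] (π : ∀ X n, G X n →+ Q X n)
    (r : ∀ X n, G X n → T.M X) : Prop where
  add : ∀ X n (x y : G X n), r X n (x + y) = r X n x + r X n y
  mem : ∀ X n (x : G X n), T.Deg n (r X n x)
  kernel : ∀ X n, {x | r X n x = 0}.Finite
  surjective : ∀ X n, Function.Surjective (π X n)
  torsion : ∀ X n (x : Q X n), IsOfFinAddOrder x
  low : ∀ X n, n ≤ 1 → AddGroup.FG (G X n)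
  corr : ∀ {X Y : 𝒱.Obj} {j : ℤ} {Γ : A.A (X.prod Y)}, A.Deg (X.dim + j) Γ → ∀ n m : ℤ,
    m = n + j → ∃ (M : ℕ) (f : G X n →+ G Y m) (f' : Q X n →+ Q Y m), 0 < M ∧
      Lifts T π r Γ M f f'
  pullback : ∀ (X Y : 𝒱.Obj) (n : ℤ), ∃ (f : G Y n →+ G (X.prod Y) n)
    (f' : Q Y n →+ Q (X.prod Y) n) (g : G (X.prod Y) n →+ G Y n) (g' : Q (X.prod Y) n →+ Q Y n),
      Lifts T π r (timesCorr A Y (1 : A.A X)) 1 f f' ∧ (∀ x, π Y n (g x) = g' (π _ n x)) ∧
        ∀ x, g (f x) = x

/-- The conclusions for the varieties `V` and `Z`. Here `Q X 2 = H^3_nr(X × U, ℚ/ℤ(2))`,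
`G X 2 = H^4_et(X × U, ℤ(2))`, and the kernel of `π X 2` is `CH^2(X × U)`. -/
structure Conclusions {G Q : 𝒱.Obj → ℤ → Type} [∀ X n, AddCommGroup (G X n)]
    [∀ X n, AddCommGroup (Q X n)] (π : ∀ X n, G X n →+ Q X n) (V Z : 𝒱.Obj) : Prop where
  unramified : PlusFinite (Q V 2) (Q Z 2)
  motivic : PlusFG (G V 2) (G Z 2)
  chow : PlusFG (π V 2).ker (π Z 2).ker
  finite_iff : Finite (Q V 2) ↔ Finite (Q Z 2)

end geometry

end Pool.Agent.N876.NR3
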